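import Pool.Agent.H607Z.Two.Count

namespace Pool.Agent.Results.MP_efd99a_gt.ACounterexample

open Pool.Agent.H607Z.Two Bundle
open scoped Manifold ContDiff

/-- There is a compact connected Riemannian manifold `M` without boundary, with a smooth isometry
`s x` at each point `x` that fixes `x` and has differential minus the identity there, whose
two-number differs from its total mod 2 Betti number. -/
theorem result :
    ∃ (E : Type) (_ : NormedAddCommGroup E) (_ : NormedSpace ℝ E) (_ : FiniteDimensional ℝ E)
      (H : Type) (_ : TopologicalSpace H) (I : ModelWithCorners ℝ E H) (_ : I.Boundaryless)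
      (M : Type) (_ : EMetricSpace M) (_ : ChartedSpace H M) (_ : IsManifold I ∞ M)
      (_ : RiemannianBundle (fun x : M => TangentSpace I x))
      (_ : IsContMDiffRiemannianBundle I ∞ E (fun x : M => TangentSpace I x))
      (_ : IsRiemannianManifold I M),
      CompactSpace M ∧ ConnectedSpace M ∧ ∃ s : M → M → M,
        (∀ x : M, Isometry (s x) ∧ ContMDiff I I ∞ (s x) ∧ s x x = x ∧
          mfderiv I I (s x) x = -ContinuousLinearMap.id ℝ (TangentSpace I x)) ∧
        twoNumber s ≠ totalBettiModTwo M := by
  obtain ⟨n, b, ⟨M, i1, i2, i3, i4, i5, i6, h1, h2, s, hs, hn, hb⟩, hne⟩ := exists_ne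
  exact ⟨E9, inferInstance, inferInstance, inferInstance, H9, inferInstance, I9, inferInstance,
    M, i1, i2, i3, i4, i5, i6, h1, h2, s, hs, by rw [hn, hb]; exact hne⟩

end Pool.Agent.Results.MP_efd99a_gt.ACounterexample
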